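import Pool.Agent.H25.Determ

set_option autoImplicit false

namespace Pool.Agent.Results.MP_04f724_gt.No

theorem result : ∃ (G : Type) (_ : CommGroup G) (_ : TopologicalSpace G)
    (_ : IsTopologicalGroup G), CompactSpace G ∧ T2Space G ∧
      (∀ H : Subgroup G, Dense (H : Set G) →
        (∀ s : Set H, s.Countable → IsCompact (closure s)) →
        IsHomeomorph (PontryaginDual.map (⟨H.subtype, continuous_subtype_val⟩ : H →ₜ* G))) ∧
      ¬ TopologicalSpace.MetrizableSpace G :=
  ⟨Pool.Agent.H25.Aron.W → Circle, inferInstance, inferInstance, inferInstance, inferInstance,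
    inferInstance, Pool.Agent.H25.Determ.det, Pool.Agent.H25.Determ.nm⟩

end Pool.Agent.Results.MP_04f724_gt.No
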